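import Pool.Agent.PDF4.Main

/-!
# Bermond's conjecture for `K_4`: `K_4^(m)` is graceful if and only if `m = 1` or `m ≥ 4`

`B 4 1 m` is the one-point union of `m` copies of `K_4`.
-/

namespace Pool.Agent.Results.MP_b7e8d8_co.BermondKFour

open Pool.Agent.Graceful

/-- The one-point union of `m ≥ 1` copies of `K_4` is graceful if and only if `m = 1` or
`m ≥ 4`. -/
theorem result (m : ℕ) (hm : 1 ≤ m) : IsGraceful (B 4 1 m) ↔ m = 1 ∨ 4 ≤ m :=
  Pool.Agent.PDF4.graceful_iff m hm

end Pool.Agent.Results.MP_b7e8d8_co.BermondKFour
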