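import Mathlib

/-!
# Copies of `K_n` sharing a common `K_r` are not graceful when `n` is large compared with `r`

`B(n,r,m)` consists of `m` copies of `K_n` with a common `K_r`. If `5 n ≥ 12 r + 14` then
`B(n,r,m)` is not graceful, whatever `m` is.

Proof. Let `q` be the number of edges, `f` a graceful labelling and `θ = 3π/(2q+1)`. The sum of
`2 cos(θ |f u - f v|)` over the edges is `∑_j |A + X_j|² - (m-1)|A|² - (r + m s)`, where
`s = n - r` and `A`, `X_j` are the sums of `exp(iθ f v)` over the common vertices and over the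
other vertices of the `j`-th copy. It is at least `-(m-1) r² - r - m s`. On the other hand it
equals the sum of `2 cos(kθ)` over `1 ≤ k ≤ q`, that is `-1/sin(θ/2) - 1`, which is smaller.
-/

namespace Pool.Agent.Results.MP_b7e8d8_co.LargeCliques

open Finset

/-- A finite graph `G` with `q` edges is graceful if there is an injective map `f` from the
vertices to `{0, …, q}` such that the values `|f u - f v|` at the edges `uv` are pairwise
distinct. -/
def IsGraceful {V : Type*} [Fintype V] (G : SimpleGraph V) : Prop :=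
  ∃ f : V → ℕ, Function.Injective f ∧ (∀ v, f v ≤ Nat.card G.edgeSet) ∧
    ∀ u v u' v' : V, G.Adj u v → G.Adj u' v' → Nat.dist (f u) (f v) = Nat.dist (f u') (f v') →
      s(u, v) = s(u', v')

/-- The graph `B(n,r,m)`: `m` copies of `K_n` with `r` common vertices, otherwise disjoint. The
common vertices are the `Sum.inl a`, the other vertices of the `j`-th copy the
`Sum.inr (j, x)`. -/
def B (n r m : ℕ) : SimpleGraph (Fin r ⊕ Fin m × Fin (n - r)) where
  Adj u v := u ≠ v ∧ ∀ j x j' x', u = Sum.inr (j, x) → v = Sum.inr (j', x') → j = j'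
  symm := by
    constructor
    rintro u v ⟨h1, h2⟩
    exact ⟨h1.symm, fun j x j' x' hu hv => (h2 j' x' j x hv hu).symm⟩
  loopless := ⟨fun u h => h.1 rfl⟩

open Classical in
/-- The quadratic form of the adjacency matrix of `B(n,r,m)`. -/
theorem quad (n r m : ℕ) (w : Fin r ⊕ Fin m × Fin (n - r) → ℝ) :
    ∑ u, ∑ v, (if (B n r m).Adj u v then w u * w v else 0) =
      ∑ j : Fin m, ((∑ a, w (Sum.inl a)) + ∑ x, w (Sum.inr (j, x))) ^ 2
        - ((m : ℝ) - 1) * (∑ a, w (Sum.inl a)) ^ 2 - ∑ u, w u ^ 2 := by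
  have h1 : ∀ u v, (if (B n r m).Adj u v then w u * w v else 0) =
      (if (∀ j x j' x', u = Sum.inr (j, x) → v = Sum.inr (j', x') → j = j') then w u * w v else 0)
        - (if u = v then w u * w v else 0) := by
    intro u v
    by_cases huv : u = v
    · subst huv
      have h2 : (∀ j x j' x', u = Sum.inr (j, x) → u = Sum.inr (j', x') → j = j') := by
        intro j x j' x' h3 h4
        rw [h3] at h4
        exact congrArg Prod.fst (Sum.inr_injective h4)
      rw [if_neg (SimpleGraph.irrefl _), if_pos h2, if_pos rfl]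
      ring
    · simp only [B, ne_eq, huv, not_false_eq_true, true_and, if_false, sub_zero]
  simp only [h1, Finset.sum_sub_distrib]
  have h3 : ∑ u, ∑ v, (if u = v then w u * w v else 0) = ∑ u, w u ^ 2 := by
    apply Finset.sum_congr rfl
    intro u _
    rw [Finset.sum_ite_eq]
    simp [sq]
  rw [h3]
  congr 1
  set W : ℝ := ∑ a, w (Sum.inl a) with hW
  have h4 : ∑ u, ∑ v, (if (∀ j x j' x', u = Sum.inr (j, x) → v = Sum.inr (j', x') → j = j')
      then w u * w v else 0) = W ^ 2 + 2 * W * (∑ j : Fin m, ∑ x, w (Sum.inr (j, x)))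
        + ∑ j : Fin m, (∑ x, w (Sum.inr (j, x))) ^ 2 := by
    rw [Fintype.sum_sum_type]
    have h5 : ∀ a : Fin r, ∑ v, (if (∀ j x j' x', (Sum.inl a : Fin r ⊕ Fin m × Fin (n - r)) =
        Sum.inr (j, x) → v = Sum.inr (j', x') → j = j') then w (Sum.inl a) * w v else 0)
        = w (Sum.inl a) * (W + ∑ j : Fin m, ∑ x, w (Sum.inr (j, x))) := by
      intro a
      simp only [reduceCtorEq, false_imp_iff, implies_true, if_true]
      rw [← Finset.mul_sum, Fintype.sum_sum_type, Fintype.sum_prod_type]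
    have h6 : ∀ p : Fin m × Fin (n - r), ∑ v, (if (∀ j x j' x',
        (Sum.inr p : Fin r ⊕ Fin m × Fin (n - r)) = Sum.inr (j, x) → v = Sum.inr (j', x') → j = j')
        then w (Sum.inr p) * w v else 0)
        = w (Sum.inr p) * (W + ∑ x, w (Sum.inr (p.1, x))) := by
      intro p
      rw [Fintype.sum_sum_type, mul_add]
      congr 1
      · simp only [reduceCtorEq, false_imp_iff, implies_true, if_true]
        rw [← Finset.mul_sum]
      · rw [Fintype.sum_prod_type, Finset.sum_eq_single p.1]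
        · rw [Finset.mul_sum]
          apply Finset.sum_congr rfl
          intro x _
          rw [if_pos]
          intro j y j' y' h7 h8
          have h9 := Sum.inr_injective h7
          have h10 := Sum.inr_injective h8
          rw [h9] at h10
          exact congrArg Prod.fst h10
        · intro j' _ hj'
          apply Finset.sum_eq_zero
          intro x _
          rw [if_neg]
          intro h7
          exact hj' (h7 p.1 p.2 j' x rfl rfl).symm
        · intro h
          exact absurd (Finset.mem_univ _) h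
    rw [Finset.sum_congr rfl (fun a _ => h5 a), Finset.sum_congr rfl (fun p _ => h6 p),
      ← Finset.sum_mul, Fintype.sum_prod_type]
    have h7 : ∀ j : Fin m, ∑ x, w (Sum.inr (j, x)) * (W + ∑ y, w (Sum.inr (j, y)))
        = W * (∑ x, w (Sum.inr (j, x))) + (∑ x, w (Sum.inr (j, x))) ^ 2 := by
      intro j
      rw [← Finset.sum_mul]
      ring
    simp only [h7, Finset.sum_add_distrib, ← Finset.mul_sum]
    ring
  rw [h4]
  have h8 : ∀ j : Fin m, (W + ∑ x, w (Sum.inr (j, x))) ^ 2 =
      W ^ 2 + 2 * W * (∑ x, w (Sum.inr (j, x))) + (∑ x, w (Sum.inr (j, x))) ^ 2 := by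
    intro j; ring
  simp only [h8, Finset.sum_add_distrib, ← Finset.mul_sum, Finset.sum_const, Finset.card_univ,
    Fintype.card_fin, nsmul_eq_mul]
  ring

open Classical in
/-- Twice the number of edges of `B(n,r,m)`. -/
theorem two_edges (n r m : ℕ) :
    2 * (Nat.card (B n r m).edgeSet : ℝ) = m * ((r : ℝ) + (n - r : ℕ)) ^ 2
      - ((m : ℝ) - 1) * r ^ 2 - (r + m * (n - r : ℕ)) := by
  have h1 := quad n r m (fun _ => 1)
  have h2 : ∑ u, ∑ v, (if (B n r m).Adj u v then (1:ℝ) * 1 else 0) =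
      2 * (Nat.card (B n r m).edgeSet : ℝ) := by
    have h3 : ∀ u, ∑ v, (if (B n r m).Adj u v then (1:ℝ) * 1 else 0) = ((B n r m).degree u : ℝ) := by
      intro u
      rw [← SimpleGraph.card_neighborFinset_eq_degree, SimpleGraph.neighborFinset_eq_filter]
      simp
    rw [Finset.sum_congr rfl (fun u _ => h3 u)]
    have h4 := (B n r m).sum_degrees_eq_twice_card_edges
    have h5 : (∑ u, ((B n r m).degree u : ℝ)) = ((∑ u, (B n r m).degree u : ℕ) : ℝ) := by
      push_cast; rfl
    rw [h5, h4, Nat.card_eq_fintype_card, ← SimpleGraph.edgeFinset_card]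
    push_cast
    ring
  rw [h2] at h1
  rw [h1]
  simp

open Classical in
/-- Summation over the edges of a graceful graph. -/
theorem sum_graceful {V : Type*} [Fintype V] (G : SimpleGraph V) (f : V → ℕ)
    (hinj : Function.Injective f) (hle : ∀ v, f v ≤ Nat.card G.edgeSet)
    (hd : ∀ u v u' v' : V, G.Adj u v → G.Adj u' v' →
      Nat.dist (f u) (f v) = Nat.dist (f u') (f v') → s(u, v) = s(u', v')) (g : ℕ → ℝ) :
    ∑ u, ∑ v, (if G.Adj u v then g (Nat.dist (f u) (f v)) else 0) =
      2 * ∑ k ∈ Finset.Icc 1 (Nat.card G.edgeSet), g k := by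
  set q := Nat.card G.edgeSet with hq
  let lab : Sym2 V → ℕ := Sym2.lift ⟨fun u v => Nat.dist (f u) (f v), fun u v => Nat.dist_comm _ _⟩
  have hlab : ∀ u v, lab s(u, v) = Nat.dist (f u) (f v) := fun u v => rfl
  have hinjOn : Set.InjOn lab (G.edgeFinset : Set (Sym2 V)) := by
    intro e he e' he' hee
    induction e with
    | _ u v =>
      induction e' with
      | _ u' v' =>
        rw [SimpleGraph.coe_edgeFinset, SimpleGraph.mem_edgeSet] at he he'
        exact hd u v u' v' he he' hee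
  have hcard : G.edgeFinset.card = q := by
    rw [hq, Nat.card_eq_fintype_card, ← SimpleGraph.edgeFinset_card]
  have himg : G.edgeFinset.image lab = Finset.Icc 1 q := by
    apply Finset.eq_of_subset_of_card_le
    · intro k hk
      rw [Finset.mem_image] at hk
      obtain ⟨e, he, rfl⟩ := hk
      induction e with
      | _ u v =>
        rw [SimpleGraph.mem_edgeFinset, SimpleGraph.mem_edgeSet] at he
        have h1 := hle u
        have h2 := hle v
        have h3 : f u ≠ f v := fun h => G.ne_of_adj he (hinj h)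
        rw [hlab, Finset.mem_Icc]
        unfold Nat.dist
        omega
    · rw [Finset.card_image_of_injOn hinjOn, hcard, Nat.card_Icc]
      omega
  have h1 : ∑ u, ∑ v, (if G.Adj u v then g (Nat.dist (f u) (f v)) else 0) =
      ∑ p ∈ (Finset.univ : Finset (V × V)).filter (fun p => G.Adj p.1 p.2),
        g (lab s(p.1, p.2)) := by
    rw [Finset.sum_filter, ← Finset.univ_product_univ, Finset.sum_product]
    rfl
  rw [h1]
  have h2 : ∀ p ∈ (Finset.univ : Finset (V × V)).filter (fun p => G.Adj p.1 p.2),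
      s(p.1, p.2) ∈ G.edgeFinset := by
    intro p hp
    rw [Finset.mem_filter] at hp
    rw [SimpleGraph.mem_edgeFinset]
    exact hp.2
  rw [← Finset.sum_fiberwise_of_maps_to h2]
  have h3 : ∀ e ∈ G.edgeFinset, ∑ p ∈ (Finset.univ : Finset (V × V)).filter
      (fun p => G.Adj p.1 p.2) with s(p.1, p.2) = e, g (lab s(p.1, p.2)) = 2 * g (lab e) := by
    intro e he
    induction e with
    | _ u v =>
      rw [SimpleGraph.mem_edgeFinset, SimpleGraph.mem_edgeSet] at he
      have hne := G.ne_of_adj he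
      have h4 : ((Finset.univ : Finset (V × V)).filter (fun p => G.Adj p.1 p.2)).filter
          (fun p => s(p.1, p.2) = s(u, v)) = {(u, v), (v, u)} := by
        ext ⟨a, b⟩
        simp only [Finset.mem_filter, Finset.mem_univ, true_and, Finset.mem_insert,
          Finset.mem_singleton, Prod.mk.injEq, Sym2.eq_iff]
        constructor
        · exact fun h => h.2
        · rintro (⟨rfl, rfl⟩ | ⟨rfl, rfl⟩)
          · exact ⟨he, Or.inl ⟨rfl, rfl⟩⟩
          · exact ⟨he.symm, Or.inr ⟨rfl, rfl⟩⟩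
      rw [h4, Finset.sum_pair]
      · rw [Sym2.eq_swap (a := v)]
        ring
      · intro h
        exact hne (congrArg Prod.fst h)
  rw [Finset.sum_congr rfl h3, ← Finset.mul_sum, ← himg, Finset.sum_image]
  exact hinjOn

/-- The Dirichlet kernel at `3π/(2q+1)`. -/
theorem dirichlet (q : ℕ) (hq : 1 ≤ q) :
    2 * ∑ k ∈ Finset.Icc 1 q, Real.cos (3 * Real.pi / (2 * q + 1) * k) ≤
      - (2 * (2 * q + 1) / (3 * Real.pi)) - 1 := by
  set θ : ℝ := 3 * Real.pi / (2 * q + 1) with hθ
  have hq' : (1:ℝ) ≤ q := by exact_mod_cast hq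
  have hpos : (0:ℝ) < 2 * q + 1 := by positivity
  have hθ0 : 0 < θ := by rw [hθ]; positivity
  have h1 : ∀ n : ℕ, (2 * ∑ k ∈ Finset.Icc 1 n, Real.cos (θ * k)) * Real.sin (θ / 2) =
      Real.sin ((2 * n + 1) * (θ / 2)) - Real.sin (θ / 2) := by
    intro n
    induction n with
    | zero => simp
    | succ n ih =>
      rw [Finset.sum_Icc_succ_top (by omega), mul_add, add_mul, ih]
      have h2 : 2 * Real.cos (θ * ((n + 1 : ℕ) : ℝ)) * Real.sin (θ / 2) =
          Real.sin ((2 * ((n + 1 : ℕ) : ℝ) + 1) * (θ / 2)) - Real.sin ((2 * n + 1) * (θ / 2)) := by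
        rw [Real.sin_sub_sin]
        have e1 : ((2 * ((n + 1 : ℕ) : ℝ) + 1) * (θ / 2) - (2 * n + 1) * (θ / 2)) / 2 = θ / 2 := by
          push_cast; ring
        have e2 : ((2 * ((n + 1 : ℕ) : ℝ) + 1) * (θ / 2) + (2 * n + 1) * (θ / 2)) / 2
            = θ * ((n + 1 : ℕ) : ℝ) := by
          push_cast; ring
        rw [e1, e2]
        ring
      rw [h2]
      ring
  have h2 := h1 q
  have h3 : (2 * (q : ℝ) + 1) * (θ / 2) = Real.pi / 2 + Real.pi := by
    rw [hθ]
    field_simp
    ring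
  rw [h3, Real.sin_add_pi, Real.sin_pi_div_two] at h2
  have hle : θ / 2 ≤ Real.pi / 2 := by
    rw [hθ, div_div, div_le_div_iff₀ (by positivity) (by norm_num)]
    nlinarith [Real.pi_pos]
  have hs0 : 0 < Real.sin (θ / 2) :=
    Real.sin_pos_of_pos_of_lt_pi (by positivity) (by linarith [Real.pi_pos])
  have hs1 : Real.sin (θ / 2) ≤ θ / 2 := (Real.sin_lt (by positivity)).le
  have h4 : 2 * (2 * (q:ℝ) + 1) / (3 * Real.pi) * Real.sin (θ / 2) ≤ 1 := by
    calc 2 * (2 * (q:ℝ) + 1) / (3 * Real.pi) * Real.sin (θ / 2)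
        ≤ 2 * (2 * (q:ℝ) + 1) / (3 * Real.pi) * (θ / 2) := by gcongr
      _ = 1 := by
        rw [hθ]
        have := Real.pi_pos
        field_simp
  have h5 : (2 * ∑ k ∈ Finset.Icc 1 q, Real.cos (θ * k)) * Real.sin (θ / 2) ≤
      (- (2 * (2 * q + 1) / (3 * Real.pi)) - 1) * Real.sin (θ / 2) := by
    rw [h2]
    linarith
  exact le_of_mul_le_mul_right h5 hs0

theorem cos_dist (θ : ℝ) (a b : ℕ) :
    Real.cos (θ * (Nat.dist a b : ℕ)) =
      Real.cos (θ * a) * Real.cos (θ * b) + Real.sin (θ * a) * Real.sin (θ * b) := by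
  rw [← Real.cos_sub]
  rcases le_total a b with h | h
  · rw [Nat.dist_eq_sub_of_le h, Nat.cast_sub h, ← Real.cos_neg]
    congr 1; ring
  · rw [Nat.dist_eq_sub_of_le_right h, Nat.cast_sub h]
    congr 1; ring

theorem num_ineq (r s M : ℝ) (hr : 1 ≤ r) (hs : 5 ≤ s) (hrs : r = 1 ∨ 7 * r + 14 ≤ 5 * s)
    (hM : 0 ≤ M) :
    M * r ^ 2 + r + (M + 1) * s - 1 <
      0.2122 * (r ^ 2 - r + 1 + (M + 1) * (s ^ 2 + 2 * r * s - s)) := by
  have h1 : 0 ≤ 0.2122 * (s ^ 2 + 2 * r * s - s) - r ^ 2 - s := by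
    rcases hrs with rfl | h
    · nlinarith
    · rcases le_total r 1.9 with h2 | h2
      · nlinarith
      · nlinarith [mul_nonneg (sub_nonneg.2 h) (sub_nonneg.2 h2),
          mul_nonneg (sub_nonneg.2 h) (sub_nonneg.2 hs), mul_nonneg (sub_nonneg.2 h) (sub_nonneg.2 h)]
  have h2 : r + s - 1 < 0.2122 * (r ^ 2 - r + 1 + (s ^ 2 + 2 * r * s - s)) := by
    nlinarith
  nlinarith [mul_nonneg hM h1]

/-- If `5 n ≥ 12 r + 14`, then no `B(n,r,m)` is graceful. -/
theorem result (m n r : ℕ) (hm : 1 ≤ m) (hr : 1 ≤ r) (hn : 12 * r + 14 ≤ 5 * n) :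
    ¬ IsGraceful (B n r m) := by
  classical
  rintro ⟨f, hinj, hle, hd⟩
  set q := Nat.card (B n r m).edgeSet with hq
  obtain ⟨s, hs⟩ : ∃ s, s = n - r := ⟨_, rfl⟩
  have hs5 : 5 ≤ s := by omega
  have hrs : r = 1 ∨ 7 * r + 14 ≤ 5 * s := by omega
  have hr' : (1:ℝ) ≤ r := by exact_mod_cast hr
  have hs' : (5:ℝ) ≤ s := by exact_mod_cast hs5
  have hm' : (1:ℝ) ≤ m := by exact_mod_cast hm
  have hrs' : (r:ℝ) = 1 ∨ 7 * (r:ℝ) + 14 ≤ 5 * s := by
    rcases hrs with h | h
    · left; exact_mod_cast h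
    · right; exact_mod_cast h
  have hnum := num_ineq r s (m - 1) hr' hs' hrs' (by linarith)
  have h2q := two_edges n r m
  rw [← hq, ← hs] at h2q
  have hqr : 2 * (q:ℝ) = r ^ 2 - r + ((m:ℝ) - 1 + 1) * (s ^ 2 + 2 * r * s - s) := by
    rw [h2q]; ring
  have hq1 : 1 ≤ q := by
    have h1 : (0:ℝ) < 2 * q := by
      rw [hqr]
      have h2 : (0:ℝ) < s ^ 2 + 2 * r * s - s := by nlinarith
      nlinarith [mul_pos (by linarith : (0:ℝ) < (m:ℝ) - 1 + 1) h2]
    have h3 : (0:ℝ) < q := by linarith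
    exact_mod_cast h3
  set θ : ℝ := 3 * Real.pi / (2 * q + 1) with hθ
  have hsum := sum_graceful (B n r m) f hinj hle hd (fun k => Real.cos (θ * k))
  rw [← hq] at hsum
  have hdir := dirichlet q hq1
  rw [← hθ] at hdir
  have hc := quad n r m (fun u => Real.cos (θ * f u))
  have hsn := quad n r m (fun u => Real.sin (θ * f u))
  have hadd : ∑ u, ∑ v, (if (B n r m).Adj u v then Real.cos (θ * (Nat.dist (f u) (f v) : ℕ)) else 0)
      = ∑ u, ∑ v, (if (B n r m).Adj u v then Real.cos (θ * f u) * Real.cos (θ * f v) else 0)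
        + ∑ u, ∑ v, (if (B n r m).Adj u v then Real.sin (θ * f u) * Real.sin (θ * f v) else 0) := by
    rw [← Finset.sum_add_distrib]
    apply Finset.sum_congr rfl
    intro u _
    rw [← Finset.sum_add_distrib]
    apply Finset.sum_congr rfl
    intro v _
    split_ifs
    · exact cos_dist θ _ _
    · simp
  have hW : (∑ a : Fin r, Real.cos (θ * f (Sum.inl a))) ^ 2
      + (∑ a : Fin r, Real.sin (θ * f (Sum.inl a))) ^ 2 ≤ (r:ℝ) ^ 2 := by
    have h1 := sq_sum_le_card_mul_sum_sq (s := (Finset.univ : Finset (Fin r)))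
      (f := fun a => Real.cos (θ * f (Sum.inl a)))
    have h2 := sq_sum_le_card_mul_sum_sq (s := (Finset.univ : Finset (Fin r)))
      (f := fun a => Real.sin (θ * f (Sum.inl a)))
    have h3 : ∑ a : Fin r, Real.cos (θ * f (Sum.inl a)) ^ 2
        + ∑ a : Fin r, Real.sin (θ * f (Sum.inl a)) ^ 2 = r := by
      rw [← Finset.sum_add_distrib]
      simp
    rw [Finset.card_univ, Fintype.card_fin] at h1 h2
    nlinarith
  have hone : ∑ u, Real.cos (θ * f u) ^ 2 + ∑ u, Real.sin (θ * f u) ^ 2 = (r:ℝ) + m * s := by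
    rw [← Finset.sum_add_distrib, hs]
    simp
  have hpos : 0 ≤ ∑ j : Fin m, ((∑ a, Real.cos (θ * f (Sum.inl a)))
      + ∑ x, Real.cos (θ * f (Sum.inr (j, x)))) ^ 2 := Finset.sum_nonneg (fun _ _ => sq_nonneg _)
  have hpos' : 0 ≤ ∑ j : Fin m, ((∑ a, Real.sin (θ * f (Sum.inl a)))
      + ∑ x, Real.sin (θ * f (Sum.inr (j, x)))) ^ 2 := Finset.sum_nonneg (fun _ _ => sq_nonneg _)
  have hpi := Real.pi_lt_d4
  have hpi0 := Real.pi_pos
  have hlow : 0.2122 * (2 * (q:ℝ) + 1) ≤ 2 * (2 * q + 1) / (3 * Real.pi) := by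
    rw [le_div_iff₀ (by positivity)]
    have h1 : (0:ℝ) < 2 * q + 1 := by positivity
    nlinarith
  have hM : 0 ≤ (m:ℝ) - 1 := by linarith
  nlinarith [mul_nonneg hM (sub_nonneg.2 hW)]

end Pool.Agent.Results.MP_b7e8d8_co.LargeCliques
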