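import Pool.Agent.Graceful.Basic
import Pool.Agent.OneExtra.Main

set_option autoImplicit false

/-!
# Copies of `K_{r+1}` sharing a common `K_r`

`B(r+1,r,m)` is the join of `K_r` and `m` isolated vertices. It is graceful if and only if `r ≤ 3`.

Sketch for `r ≥ 4`. Let `q` be the number of edges. All differences `q, q - 1, q - 2, …` must occur,
and each of them belongs to a pair containing a common vertex near one of the two ends of
`{0, …, q}`. After reflection `0` is a common vertex. The two or three common vertices nearest to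
the ends force the labels near the ends to follow a rigid pattern, and in each case of the position
of the third and the fourth common vertex one difference cannot occur.
-/

namespace Pool.Agent.Results.MP_b7e8d8_co.OneExtraVertex

open Pool.Agent.Graceful Pool.Agent.OneExtra Finset

open Classical in
/-- In a graceful labelling every value occurs. -/
theorem surj {V : Type*} [Fintype V] (G : SimpleGraph V) (f : V → ℕ)
    (hinj : Function.Injective f) (hle : ∀ v, f v ≤ Nat.card G.edgeSet)
    (hd : ∀ u v u' v' : V, G.Adj u v → G.Adj u' v' →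
      Nat.dist (f u) (f v) = Nat.dist (f u') (f v') → s(u, v) = s(u', v')) (k : ℕ) (h1 : 1 ≤ k)
    (h2 : k ≤ Nat.card G.edgeSet) : ∃ u v, G.Adj u v ∧ Nat.dist (f u) (f v) = k := by
  set q := Nat.card G.edgeSet with hq
  let lab : Sym2 V → ℕ := Sym2.lift ⟨fun u v => Nat.dist (f u) (f v), fun u v => Nat.dist_comm _ _⟩
  have hlab : ∀ u v, lab s(u, v) = Nat.dist (f u) (f v) := fun u v => rfl
  have hcard : G.edgeFinset.card = q := by
    rw [hq, Nat.card_eq_fintype_card, ← SimpleGraph.edgeFinset_card]
  have hin : Set.InjOn lab (G.edgeFinset : Set (Sym2 V)) := by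
    intro e he e' he' h
    induction e using Sym2.ind with
    | _ u v =>
      induction e' using Sym2.ind with
      | _ u' v' =>
        rw [SimpleGraph.coe_edgeFinset, SimpleGraph.mem_edgeSet] at he he'
        exact hd u v u' v' he he' h
  have hsub : G.edgeFinset.image lab ⊆ Finset.Icc 1 q := by
    intro x hx
    rw [Finset.mem_image] at hx
    obtain ⟨e, he, rfl⟩ := hx
    induction e using Sym2.ind with
    | _ u v =>
      rw [SimpleGraph.mem_edgeFinset, SimpleGraph.mem_edgeSet] at he
      rw [hlab, Finset.mem_Icc]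
      have h3 : f u ≠ f v := fun h => he.ne (hinj h)
      have h4 := hle u
      have h5 := hle v
      unfold Nat.dist
      omega
  have himg : G.edgeFinset.image lab = Finset.Icc 1 q := by
    apply Finset.eq_of_subset_of_card_le hsub
    rw [Nat.card_Icc, Nat.add_sub_cancel, Finset.card_image_of_injOn hin, hcard]
  have h3 : k ∈ G.edgeFinset.image lab := by
    rw [himg, Finset.mem_Icc]
    exact ⟨h1, h2⟩
  rw [Finset.mem_image] at h3
  obtain ⟨e, he, hk⟩ := h3
  induction e using Sym2.ind with
  | _ u v =>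
    rw [SimpleGraph.mem_edgeFinset, SimpleGraph.mem_edgeSet] at he
    exact ⟨u, v, he, hk⟩

/-- Twice the number of edges. -/
theorem edges (r m : ℕ) : 2 * Nat.card (B (r + 1) r m).edgeSet + r = 2 * (r * m) + r * r := by
  have h1 := two_edges (r + 1) r m
  have h2 : ((r + 1 - r : ℕ) : ℝ) = 1 := by simp
  rw [h2] at h1
  have h3 : ((2 * Nat.card (B (r + 1) r m).edgeSet + r : ℕ) : ℝ) = ((2 * (r * m) + r * r : ℕ) : ℝ) := by
    push_cast at h1 ⊢
    linarith
  exact_mod_cast h3

theorem not_graceful (r m : ℕ) (hr : 4 ≤ r) (hm : 1 ≤ m) : ¬ IsGraceful (B (r + 1) r m) := by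
  rintro ⟨f, hinj, hle, hd⟩
  have hs := surj _ f hinj hle hd
  have hE := edges r m
  set q := Nat.card (B (r + 1) r m).edgeSet with hq
  have hq10 : 10 ≤ q := by nlinarith [Nat.mul_le_mul hr hm, Nat.mul_le_mul hr hr]
  -- the abstract configuration
  let V : ℤ → Prop := fun x => ∃ v, (f v : ℤ) = x
  let A : ℤ → Prop := fun x => ∃ a : Fin r, (f (Sum.inl a) : ℤ) = x
  have hcfg : Cfg (q : ℤ) V A := by
    refine ⟨?_, ?_, ?_, ?_⟩
    · rintro x ⟨v, rfl⟩
      exact ⟨by positivity, by exact_mod_cast hle v⟩
    · rintro x ⟨a, ha⟩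
      exact ⟨_, ha⟩
    · rintro x y x' y' ⟨u, rfl⟩ ⟨v, rfl⟩ ⟨u', rfl⟩ ⟨v', rfl⟩ ha ha' h1 h2 h3
      have adj : ∀ u v, (f u : ℤ) < f v → (A (f u) ∨ A (f v)) → (B (r + 1) r m).Adj u v := by
        intro u v h1 h2
        refine ⟨fun h => by rw [h] at h1; exact lt_irrefl _ h1, ?_⟩
        intro j x j' x' h3 h4
        exfalso
        rcases h2 with ⟨a, h5⟩ | ⟨a, h5⟩
        · have h6 := hinj (Nat.cast_injective h5)
          rw [h3] at h6
          exact absurd h6 (by simp)
        · have h6 := hinj (Nat.cast_injective h5)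
          rw [h4] at h6
          exact absurd h6 (by simp)
      have h4 := hd u v u' v' (adj u v h1 ha) (adj u' v' h2 ha') (by unfold Nat.dist; omega)
      rw [Sym2.eq_iff] at h4
      rcases h4 with ⟨h4, -⟩ | ⟨h4, h5⟩
      · rw [h4]
      · rw [h4, h5] at h1
        omega
    · intro d h1 h2
      obtain ⟨k, rfl⟩ := Int.eq_ofNat_of_zero_le (show 0 ≤ d by omega)
      obtain ⟨u, v, huv, hk⟩ := hs k (by omega) (by omega)
      have hA : A (f u) ∨ A (f v) := by
        rcases u with a | ⟨j, x⟩
        · exact Or.inl ⟨a, rfl⟩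
        · rcases v with a | ⟨j', x'⟩
          · exact Or.inr ⟨a, rfl⟩
          · exfalso
            have h3 := huv.2 j x j' x' rfl rfl
            apply huv.1
            subst h3
            have h4 : x = x' := by
              apply Fin.ext
              have := x.2
              have := x'.2
              omega
            rw [h4]
      rcases lt_trichotomy (f u) (f v) with h3 | h3 | h3
      · refine ⟨f u, f v, ⟨u, rfl⟩, ⟨v, rfl⟩, hA, by exact_mod_cast h3, ?_⟩
        clear hA
        unfold Nat.dist at hk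
        omega
      · rw [h3, Nat.dist_self] at hk
        omega
      · refine ⟨f v, f u, ⟨v, rfl⟩, ⟨u, rfl⟩, hA.symm, by exact_mod_cast h3, ?_⟩
        clear hA
        unfold Nat.dist at hk
        omega
  refine no_config hcfg (by exact_mod_cast hq10) ?_
  intro a b c
  by_contra hcon
  push Not at hcon
  -- four common vertices with labels in `{a, b, c}`
  let S : Finset ℤ := (Finset.univ : Finset (Fin r)).image (fun i => (f (Sum.inl i) : ℤ))
  have hS : S.card = r := by
    rw [Finset.card_image_of_injective _ (fun i j hij => Sum.inl_injective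
      (hinj (Nat.cast_injective hij))), Finset.card_univ, Fintype.card_fin]
  have hsub : S ⊆ {a, b, c} := by
    intro x hx
    rw [Finset.mem_image] at hx
    obtain ⟨i, -, rfl⟩ := hx
    rw [Finset.mem_insert, Finset.mem_insert, Finset.mem_singleton]
    by_cases h1 : (f (Sum.inl i) : ℤ) = a
    · exact Or.inl h1
    by_cases h2 : (f (Sum.inl i) : ℤ) = b
    · exact Or.inr (Or.inl h2)
    exact Or.inr (Or.inr (hcon _ ⟨i, rfl⟩ h1 h2))
  have h3 := Finset.card_le_card hsub
  have h4 : ({a, b, c} : Finset ℤ).card ≤ 3 := Finset.card_le_three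
  omega

theorem graceful_one (m : ℕ) : IsGraceful (B 2 1 m) := by
  have hE := edges 1 m
  set q := Nat.card (B (1 + 1) 1 m).edgeSet with hq
  have hq' : q = m := by omega
  refine graceful_of_cover 2 1 m le_rfl (Sum.elim (fun _ => 0) (fun p => p.1.1 + 1)) ?_ ?_
  · show ∀ v, _ ≤ q
    rintro (a | p)
    · exact Nat.zero_le _
    · have := p.1.2
      simp only [Sum.elim_inr]
      omega
  · show ∀ k, 1 ≤ k → k ≤ q → _
    intro k h1 h2
    refine ⟨Sum.inl 0, Sum.inr (⟨k - 1, by omega⟩, 0), ⟨by simp, fun j x j' x' h => by simp at h⟩, ?_⟩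
    simp only [Sum.elim_inr, Sum.elim_inl, Nat.dist]
    omega

theorem graceful_two (m : ℕ) : IsGraceful (B 3 2 m) := by
  have hE := edges 2 m
  set q := Nat.card (B (2 + 1) 2 m).edgeSet with hq
  have hq' : q = 2 * m + 1 := by omega
  refine graceful_of_cover 3 2 m (by norm_num)
    (Sum.elim (fun a => if a = 0 then 0 else 2 * m + 1) (fun p => p.1.1 + 1)) ?_ ?_
  · show ∀ v, _ ≤ q
    rintro (a | p)
    · simp only [Sum.elim_inl]
      split_ifs <;> omega
    · have := p.1.2
      simp only [Sum.elim_inr]
      omega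
  · show ∀ k, 1 ≤ k → k ≤ q → _
    intro k h1 h2
    by_cases h3 : k ≤ m
    · refine ⟨Sum.inl 0, Sum.inr (⟨k - 1, by omega⟩, 0),
        ⟨by simp, fun j x j' x' h => by simp at h⟩, ?_⟩
      simp only [Sum.elim_inr, Sum.elim_inl, Nat.dist, if_true]
      omega
    by_cases h4 : k ≤ 2 * m
    · refine ⟨Sum.inl 1, Sum.inr (⟨2 * m - k, by omega⟩, 0),
        ⟨by simp, fun j x j' x' h => by simp at h⟩, ?_⟩
      simp only [Sum.elim_inr, Sum.elim_inl, Nat.dist]
      rw [if_neg (by decide)]
      omega
    · refine ⟨Sum.inl 0, Sum.inl 1, ⟨by simp, fun j x j' x' h => by simp at h⟩, ?_⟩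
      simp only [Sum.elim_inl, Nat.dist, if_true]
      rw [if_neg (by decide)]
      omega

theorem graceful_three (m : ℕ) : IsGraceful (B 4 3 m) := by
  have hE := edges 3 m
  set q := Nat.card (B (3 + 1) 3 m).edgeSet with hq
  have hq' : q = 3 * m + 3 := by omega
  refine graceful_of_cover 4 3 m (by norm_num)
    (Sum.elim (fun a => if a = 0 then 0 else if a = 1 then m + 1 else 3 * m + 3)
      (fun p => 2 * m + 3 + p.1.1)) ?_ ?_
  · show ∀ v, _ ≤ q
    rintro (a | p)
    · simp only [Sum.elim_inl]
      split_ifs <;> omega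
    · have := p.1.2
      simp only [Sum.elim_inr]
      omega
  · show ∀ k, 1 ≤ k → k ≤ q → _
    intro k h1 h2
    by_cases h3 : k ≤ m
    · refine ⟨Sum.inl 2, Sum.inr (⟨m - k, by omega⟩, 0),
        ⟨by simp, fun j x j' x' h => by simp at h⟩, ?_⟩
      simp only [Sum.elim_inr, Sum.elim_inl, Nat.dist]
      rw [if_neg (by decide), if_neg (by decide)]
      omega
    by_cases h4 : k = m + 1
    · refine ⟨Sum.inl 0, Sum.inl 1, ⟨by simp, fun j x j' x' h => by simp at h⟩, ?_⟩
      simp only [Sum.elim_inl, Nat.dist, if_true]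
      rw [if_neg (by decide)]
      omega
    by_cases h5 : k ≤ 2 * m + 1
    · refine ⟨Sum.inl 1, Sum.inr (⟨k - (m + 2), by omega⟩, 0),
        ⟨by simp, fun j x j' x' h => by simp at h⟩, ?_⟩
      simp only [Sum.elim_inr, Sum.elim_inl, Nat.dist, if_true]
      rw [if_neg (by decide)]
      omega
    by_cases h6 : k = 2 * m + 2
    · refine ⟨Sum.inl 1, Sum.inl 2, ⟨by simp, fun j x j' x' h => by simp at h⟩, ?_⟩
      simp only [Sum.elim_inl, Nat.dist, if_true]
      rw [if_neg (by decide), if_neg (by decide), if_neg (by decide)]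
      omega
    by_cases h7 : k ≤ 3 * m + 2
    · refine ⟨Sum.inl 0, Sum.inr (⟨k - (2 * m + 3), by omega⟩, 0),
        ⟨by simp, fun j x j' x' h => by simp at h⟩, ?_⟩
      simp only [Sum.elim_inr, Sum.elim_inl, Nat.dist, if_true]
      omega
    · refine ⟨Sum.inl 0, Sum.inl 2, ⟨by simp, fun j x j' x' h => by simp at h⟩, ?_⟩
      simp only [Sum.elim_inl, Nat.dist, if_true]
      rw [if_neg (by decide), if_neg (by decide)]
      omega

/-- `B(r+1,r,m)`, that is `m` copies of `K_{r+1}` with a common `K_r`, is graceful if and only if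
`r ≤ 3`. -/
theorem result : ∀ r m : ℕ, 1 ≤ r → 1 ≤ m → (IsGraceful (B (r + 1) r m) ↔ r ≤ 3) := by
  intro r m hr hm
  constructor
  · intro h
    by_contra h1
    exact not_graceful r m (by omega) hm h
  · intro h
    interval_cases r
    · exact graceful_one m
    · exact graceful_two m
    · exact graceful_three m

end Pool.Agent.Results.MP_b7e8d8_co.OneExtraVertex
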