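import Pool.Agent.K53.Main

/-!
# Copies of `K_5` sharing a triangle

`B 5 3 m` is `m` copies of `K_5` with three common vertices, that is, the join of a triangle with
`m` disjoint edges. It is graceful if and only if `m ≡ 0` or `3` modulo `4`.
-/

namespace Pool.Agent.Results.MP_b7e8d8_co.OrderFive

open Pool.Agent.Graceful

/-- `m ≥ 1` copies of `K_5` sharing a common triangle form a graceful graph if and only if
`m ≡ 0` or `3` modulo `4`. -/
theorem result (m : ℕ) (hm : 1 ≤ m) : IsGraceful (B 5 3 m) ↔ m % 4 = 0 ∨ m % 4 = 3 :=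
  Pool.Agent.K53.graceful_iff m hm

end Pool.Agent.Results.MP_b7e8d8_co.OrderFive
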